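import Pool.Agent.Y184.RB.Parts

/-!
# Smooth approximation of quasi-plurisubharmonic functions is a question near the non-ample locus

Let `X` be a compact complex manifold of dimension `n` with a Kähler form `Ω`, and let `θ` be any smooth
closed real `(1,1)`-form on `X` (not necessarily semipositive) which is big, with a Kähler current
smooth outside `A`: there are a closed set `A` and a function `ψ`, smooth outside `A` and with the
limit `-∞` at the points of `A`, with `θ + dd^c ψ ≥ δ Ω` outside `A` (`δ > 0`). By Demailly's
regularisation theorem one can take for `A` the non-ample locus of the class.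

A continuous `θ`-plurisubharmonic function `φ` is the limit of a decreasing sequence of smooth
`θ`-plurisubharmonic functions on `X` if and only if this holds near `A`: for every `ε > 0` there is a
smooth `θ`-plurisubharmonic function `h` on an open neighbourhood of `A` with `|h - φ| < ε`.

So (with the known theorem on approximation by continuous functions for semipositive `θ`) the
question has a positive answer for `θ` if and only if it has one in this sense in neighbourhoods of the
non-ample locus. The proof: Richberg's theorem for `(1 - t) φ + t ψ` on the complement of a small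
neighbourhood of `A`, and a regularised maximum of the function obtained and `h - 2 ε` near `A`.
-/

set_option autoImplicit false

open Set Topology Filter
open scoped ContDiff Manifold

namespace Pool.Agent.Results.MP_c7bff1_an.Localization

open Pool.Agent.Y184.RB

/-- Let `Y` be a compact complex manifold of dimension `n`, `Ω` a Kähler form and `θ` a smooth closed
`(1,1)`-form on `Y` which is big with a Kähler current smooth outside the closed set `A`. A continuous
`θ`-plurisubharmonic function `φ` is the limit of a decreasing sequence of smooth
`θ`-plurisubharmonic functions if and only if it is approximated by smooth `θ`-plurisubharmonic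
functions on neighbourhoods of `A`. -/
theorem result (n : ℕ) (Y : Type) [TopologicalSpace Y] [ChartedSpace (Fin n → ℂ) Y]
    (hman : IsManifold 𝓘(ℂ, Fin n → ℂ) ω Y) (hT2 : T2Space Y) (hcpt : CompactSpace Y)
    (Ω θ : Form n Y) (A : Set Y) (hΩ : Ω.IsKahler) (hbig : BigOff Ω θ A) (φ : Y → ℝ)
    (hφ : IsPsh θ φ) :
    (∃ u : ℕ → Y → ℝ, (∀ k, IsSmoothPsh θ (u k)) ∧ (∀ k q, u (k + 1) q ≤ u k q) ∧
      ∀ q, Tendsto (fun k => u k q) atTop (𝓝 (φ q))) ↔
    ∀ ε : ℝ, 0 < ε → ∃ (V : Set Y) (h : Y → ℝ), IsOpen V ∧ A ⊆ V ∧ SmoothPshOn θ h V ∧
      ∀ q ∈ V, |h q - φ q| < ε :=
  localization n Y hman hT2 hcpt Ω θ A hΩ hbig φ hφ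

end Pool.Agent.Results.MP_c7bff1_an.Localization
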