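import Pool.Agent.Y184.RB.Parts

/-!
# Smooth approximation of quasi-plurisubharmonic functions: non-ample loci covered by null curves

Let `X` be a compact complex manifold of dimension `n` with a Kähler form `Ω`, and let `θ` be a smooth
closed semipositive `(1,1)`-form on `X` which is big: there are a closed set `A` and a function `ψ`,
smooth outside `A` and with the limit `-∞` at the points of `A`, with `θ + dd^c ψ ≥ δ Ω` outside `A`
(`δ > 0`). So `A` contains the non-ample locus of the class of `θ`, and can be taken equal to it by
Demailly's regularisation theorem. Suppose that the points of `A` close to a point `p ∈ A` are joined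
to `p` by chains of compact curves in `A` on which `θ` vanishes.

Then every continuous `θ`-plurisubharmonic function on `X` is the limit of a decreasing sequence of
smooth `θ`-plurisubharmonic functions; more generally, for a decreasing sequence `φ_k` of continuous
`θ`-plurisubharmonic functions there are smooth `θ`-plurisubharmonic functions
`u_0 ≥ u_1 ≥ ...` with `φ_k ≤ u_k ≤ φ_k + 2^{-k}`. With the known theorem that every
`θ`-plurisubharmonic function is the limit of a decreasing sequence of continuous ones, this answers
the question positively for these forms. The hypothesis on `A` holds if the non-ample locus has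
dimension at most one (it is the null locus by a theorem of Collins and Tosatti, so `θ` has integral
`0` over its curves and vanishes on them), in particular for all semipositive big forms on compact
Kähler surfaces. It also holds for example if `A` is covered by rational curves which are contracted,
as for resolutions of isolated singularities with rationally chain connected exceptional sets.

The proof: a continuous `θ`-plurisubharmonic function `φ` is constant along null curves, so it is
locally constant on `A`. Outside `A` the function `(1 - t) φ + t ψ` is strictly
`θ`-plurisubharmonic, and it is approximated by a smooth one on the complement of a small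
neighbourhood of `A` (local convolution and gluing with a regularised maximum, Richberg). Since `θ` is
semipositive, constants are `θ`-plurisubharmonic; the regularised maximum with the constant
`φ(A) - ε` near `A` is smooth on `X`.
-/

set_option autoImplicit false

open Set Topology Filter
open scoped ContDiff Manifold

namespace Pool.Agent.Results.MP_c7bff1_an.NullCurveLocus

open Pool.Agent.Y184.RB

/-- Let `Y` be a compact complex manifold of dimension `n`, `Ω` a Kähler form and `θ` a semipositive
closed form on `Y` which is big with a Kähler current smooth outside `A` (`BigOff`). If the points of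
`A` near `p ∈ A` are joined to `p` by chains of compact curves in `A` on which `θ` vanishes, then for
every decreasing sequence `φ k` of continuous `θ`-plurisubharmonic functions there is a decreasing
sequence of smooth `θ`-plurisubharmonic functions `u k` with `φ k ≤ u k ≤ φ k + 2^{-k}`. -/
theorem result (n : ℕ) (Y : Type) [TopologicalSpace Y] [ChartedSpace (Fin n → ℂ) Y]
    (hman : IsManifold 𝓘(ℂ, Fin n → ℂ) ω Y) (hT2 : T2Space Y) (hcpt : CompactSpace Y)
    (Ω θ : Form n Y) (A : Set Y) (hΩ : Ω.IsKahler) (hθ : θ.Semipositive) (hbig : BigOff Ω θ A)
    (hchain : ∀ p ∈ A, ∀ᶠ q in 𝓝[A] p, Relation.EqvGen (NullCurve θ A) p q)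
    (φ : ℕ → Y → ℝ) (hφ : ∀ k, IsPsh θ (φ k)) (hdec : ∀ k q, φ (k + 1) q ≤ φ k q) :
    ∃ u : ℕ → Y → ℝ, (∀ k, IsSmoothPsh θ (u k)) ∧ (∀ k q, u (k + 1) q ≤ u k q) ∧
      ∀ k q, φ k q ≤ u k q ∧ u k q ≤ φ k q + (1 / 2) ^ k :=
  final hApp hNull hOp n Y hman hT2 hcpt Ω θ A hΩ hθ hbig hchain φ hφ hdec

end Pool.Agent.Results.MP_c7bff1_an.NullCurveLocus
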